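import Pool.Agent.Work.MP_6bf1e5_an.Dec.Params
import Pool.Agent.Work.MP_6bf1e5_an.Dec.NetOf
import Pool.Agent.Work.MP_6bf1e5_an.Dec.NoNet
import Pool.Agent.Work.MP_6bf1e5_an.Dec.Extra

/-!
Finite-time blow-up for a sharp helical Fourier decimation of the unforced periodic
three-dimensional Navier-Stokes equations with the full Laplacian.
-/

open Set Pool.Agent.Work.MP_6bf1e5_an.B Pool.Agent.Work.MP_6bf1e5_an

namespace Pool.Agent.Work.MP_6bf1e5_an.Parked.DecimatedBlowup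

theorem result : ∃ S1 S2 : Set Z3, (∀ k, -k ∈ S1 ↔ k ∈ S1) ∧ (∀ k, -k ∈ S2 ↔ k ∈ S2) ∧
    ∀ ν : ℝ, 0 < ν → ∃ u0 : R3 → R3, IsData u0 ∧ {k | fc u0 k ≠ 0}.Finite ∧
      (∃ T > 0, ∃ u p, IsSolutionOn (decim ν S1 S2) u0 (Ico 0 T) u p ∧
        (∀ t ∈ Ico 0 T, (∀ k, k ∉ S1 → hP 1 k (fc (fun x => u x t) k) = 0) ∧
          (∀ k, k ∉ S2 → hP (-1) k (fc (fun x => u x t) k) = 0) ∧
          HasDerivWithinAt (fun s => enr 0 fun x => u x s) (-(2 * ν * enr 1 fun x => u x t))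
            (Ico 0 T) t ∧
          HasDerivWithinAt (fun s => hlc 0 fun x => u x s) (-(2 * ν * hlc 1 fun x => u x t))
            (Ico 0 T) t) ∧
        ∀ M : ℝ, ∃ t ∈ Ico 0 T, ∃ x, M < ‖u x t‖) ∧
      ¬∃ u p, IsSolutionOn (decim ν S1 S2) u0 (Ici 0) u p := by
  obtain ⟨Γ⟩ := Dec.exists_geo
  obtain ⟨S1, S2, h1, h2, H⟩ := Dec.net_of_isSol Γ
  refine ⟨S1, S2, h1, h2, fun ν hν => ?_⟩
  obtain ⟨a0, ha0, no⟩ := Dec.no_net Γ hν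
  obtain ⟨d0, fin, re, fx, hd⟩ := H ν a0 hν ha0
  obtain ⟨u0, h0, f0, a1, a2, -, hn⟩ := G.blowup_of_no_global h1 h2 hν fin re fx
    fun ⟨a, e, ha⟩ => (hd a e ha).elim no
  exact ⟨u0, h0, f0, G.blowup_full h1 h2 hν h0 a1 a2 hn, hn⟩

end Pool.Agent.Work.MP_6bf1e5_an.Parked.DecimatedBlowup
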