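import Pool.Agent.Work.MP_6bf1e5_an.Bl.Main

/-! Finite-time blow-up for the unforced viscous dyadic (Katz-Pavlovic) model of the
Navier-Stokes equations below the exponent three: `β ≥ 66/25` with `lam ^ β` near `5/4`. -/

namespace Pool.Agent.Work.MP_6bf1e5_an.Parked.DyadicBlowup

open Pool.Agent.Work.MP_6bf1e5_an.Dy

theorem result (lam β ν : ℝ) (hlam : 1 < lam) (hβ : 66 / 25 ≤ β)
    (hκ : |lam ^ β - 5 / 4| ≤ 1 / 100000) (hν : 0 < ν) :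
    ∃ (x : ℕ → ℝ) (T : ℝ), 0 < T ∧ x 0 = 0 ∧ (∀ n, 0 ≤ x n) ∧ (∀ n, 13 < n → x n = 0) ∧
      (∃ X : ℝ → ℕ → ℝ, DyadicSolvesOn lam β ν 0 (Set.Ici 0) X ∧ X 0 = x ∧
        WeightBounded lam 0 (Set.Ici 0) X) ∧
      ∀ X : ℝ → ℕ → ℝ, DyadicSolvesOn lam β ν 0 (Set.Icc 0 T) X → X 0 = x →
        ∃ T₀ ∈ Set.Ioc 0 T, (∀ t < T₀, ∀ γ : ℝ, WeightBounded lam γ (Set.Icc 0 t) X) ∧
          ¬ WeightBounded lam (β - 2) (Set.Ico 0 T₀) X :=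
  Pool.Agent.Work.MP_6bf1e5_an.Bl.main lam β ν hlam hβ hκ hν

end Pool.Agent.Work.MP_6bf1e5_an.Parked.DyadicBlowup
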