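import Pool.Agent.Work.MP_6bf1e5_an.Dy.Main

/-! Global well-posedness and regularity of the forced viscous dyadic (Katz-Pavlovic) model of
the Navier-Stokes equations: for `β ≤ 5/2` and every shell ratio `lam > 1`, and for `β ≤ 3`
and every `lam ≥ 2`. -/

namespace Pool.Agent.Work.MP_6bf1e5_an.Parked.DyadicGap

open Pool.Agent.Work.MP_6bf1e5_an.Dy

theorem result (lam β ν : ℝ) (hlam : 1 < lam) (hβ : β ≤ if lam < 2 then 5 / 2 else 3) (hν : 0 < ν)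
    (x : ℕ → ℝ) (hx0 : x 0 = 0)
    (hx : Filter.Tendsto (fun n : ℕ => lam ^ ((β - 2) * n) * x n) Filter.atTop (nhds 0))
    (f : ℝ → ℕ → ℝ) (hfc : ∀ n, ContinuousOn (fun t => f t n) (Set.Ici 0))
    (hfb : WeightBounded lam (β - 4) (Set.Ici 0) f)
    (hfv : WeightVanishes lam (β - 4) (Set.Ici 0) f) :
    ∃ X : ℝ → ℕ → ℝ, DyadicSolvesOn lam β ν f (Set.Ici 0) X ∧ X 0 = x ∧
      WeightVanishes lam (β - 2) (Set.Ici 0) X ∧
      (∀ γ : ℝ, WeightBounded lam (γ - 2) (Set.Ici 0) f →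
        (WeightBounded lam γ {0} X → WeightBounded lam γ (Set.Ici 0) X) ∧
        ∀ τ : ℝ, 0 < τ → WeightBounded lam γ (Set.Ici τ) X) ∧
      ∀ (T : ℝ) (Z : ℝ → ℕ → ℝ), DyadicSolvesOn lam β ν f (Set.Icc 0 T) Z → Z 0 = x →
        WeightVanishes lam (β - 2) (Set.Icc 0 T) Z → ∀ t ∈ Set.Icc 0 T, Z t = X t :=
  main lam β ν hlam
    (by split_ifs at hβ with h; exacts [Or.inl hβ, Or.inr ⟨not_lt.1 h, hβ⟩]) hν x hx0 hx f hfc hfb hfv

end Pool.Agent.Work.MP_6bf1e5_an.Parked.DyadicGap
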