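import Pool.Agent.Work.MP_6bf1e5_an.Vortex.Main

/-! Finite-time blow-up for an exact Galerkin projection of the unforced three-dimensional
Navier-Stokes equations on the whole space, from smooth compactly supported data. -/

namespace Pool.Agent.Results.MP_6bf1e5_an.GalerkinBlowup

open Pool.Agent.Work.MP_6bf1e5_an.Vortex MeasureTheory
open scoped ContDiff

theorem result : ∃ lam₀ : ℝ, 1 < lam₀ ∧ ∀ lam : ℝ, lam₀ ≤ lam → ∃ ψ : E → E,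
    ContDiff ℝ ∞ ψ ∧ HasCompactSupport ψ ∧ (∀ x, dvg ψ x = 0) ∧
    (∀ j k : ℕ, ∫ x, inner ℝ (mode ψ lam j x) (mode ψ lam k x) = if j = k then 1 else 0) ∧
    ∃ A₀ : ℝ, 0 < A₀ ∧ ∀ ν : ℝ, 0 < ν → ∀ A : ℝ, A₀ * ν ≤ A →
      (∃ T : ℝ, 0 < T ∧ ∃ u : ℝ → E → E,
        IsGalerkinSolution ν (mode ψ lam) (Set.Ico 0 T) u ∧ (u 0 = fun x => A • ψ x) ∧
        (∀ t ∈ Set.Ico 0 T, HasCompactSupport (u t) ∧ (∀ x, dvg (u t) x = 0) ∧
          (∫ x, ‖u t x‖ ^ 2) + 2 * ν * ∫ s in (0 : ℝ)..t, ∫ x, ∑ i, ‖pd i (u s) x‖ ^ 2 = A ^ 2) ∧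
        ∀ M : ℝ, ∃ t ∈ Set.Ico 0 T, ∃ x, M < ‖u t x‖) ∧
      ¬ ∃ u : ℝ → E → E,
        IsGalerkinSolution ν (mode ψ lam) (Set.Ici 0) u ∧ u 0 = fun x => A • ψ x := by
  obtain ⟨μ₀, hμ₀, h⟩ := exists_fam
  refine ⟨μ₀ ^ 2, by nlinarith, fun lam hlam => ?_⟩
  have hlam0 : 0 ≤ lam := le_trans (by positivity) hlam
  obtain ⟨ψ, a, δ, m₂, R, B, hF⟩ := h (Real.sqrt lam) (Real.le_sqrt_of_sq_le hlam)
  have hmode : (fun (k : ℕ) (x : E) => Real.sqrt lam ^ (3 * k) • ψ ((Real.sqrt lam ^ 2) ^ k • x))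
      = mode ψ lam := by
    funext k x
    unfold mode
    rw [Real.sq_sqrt hlam0, Real.sqrt_eq_rpow, ← Real.rpow_natCast, ← Real.rpow_mul hlam0]
    congr 2
    push_cast
    ring
  rw [hmode] at hF
  have h0 : mode ψ lam 0 = ψ := by
    funext x
    simp [mode]
  have ha := hF.ha
  have hm := hF.hm₂
  refine ⟨ψ, h0 ▸ hF.smooth 0, h0 ▸ hF.compact 0, h0 ▸ hF.dv 0, hF.orth,
    2240 * m₂ * Real.sqrt lam ^ 4 / a + 1, by positivity, fun ν hν A hA => ⟨?_, ?_⟩⟩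
  · simpa only [h0] using hF.exists_solution hν hA
  · simpa only [h0] using hF.no_global_solution hν hA

end Pool.Agent.Results.MP_6bf1e5_an.GalerkinBlowup
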