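import Pool.Agent.Work.MP_6bf1e5_an.G.Final

/-!
Global regularity of helical Galerkin projections of the periodic Navier-Stokes system.
-/

open Pool.Agent.Work.MP_6bf1e5_an.B

namespace Pool.Agent.Work.MP_6bf1e5_an.Parked.HelicalGalerkin

theorem result (ν β C K s : ℝ) (m : ℕ) (d1 d2 : Z3 → ℝ) (S1 S2 : Set Z3)
    (hν : 0 < ν) (hβ : 1 ≤ β) (hsign : s = 1 ∨ s = -1)
    (sym1 : ∀ k, -k ∈ S1 ↔ k ∈ S1) (sym2 : ∀ k, -k ∈ S2 ↔ k ∈ S2)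
    (even1 : ∀ k, d1 (-k) = d1 k) (even2 : ∀ k, d2 (-k) = d2 k)
    (up1 : ∀ k, d1 k ≤ C * (1 + ax k) ^ m) (up2 : ∀ k, d2 k ≤ C * (1 + ax k) ^ m)
    (low1 : ∀ k, ν * ax k ^ (2 * β) ≤ d1 k) (low2 : ∀ k, ν * ax k ^ (2 * β) ≤ d2 k)
    (pot : ∀ (q : Z3) (F : Finset Z3), (∀ k ∈ F, k ∈ S1 ∧ ax (k - q) ≤ ax q) →
      ∑ k ∈ F, ax k ^ 4 / (d1 k * Real.log (Real.exp 1 + ax k) * ax (k - q)) ≤
        K * ax q ^ (1 + 2 * β))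
    (u0 : R3 → R3) (h0 : IsData u0) (in1 : ∀ k, k ∉ S1 → hP s k (fc u0 k) = 0)
    (in2 : ∀ k, k ∉ S2 → hP (-s) k (fc u0 k) = 0) :
    ∃ (u : R3 → ℝ → R3) (p : R3 → ℝ → ℝ),
      IsSolutionOn (model s d1 d2 S1 S2) u0 (Set.Ici 0) u p ∧ ∀ t, 0 ≤ t →
        (∀ k, k ∉ S1 → hP s k (fc (fun x => u x t) k) = 0) ∧
          ∀ k, k ∉ S2 → hP (-s) k (fc (fun x => u x t) k) = 0 :=
  G.decimated hν hβ hsign sym1 sym2 even1 even2 up1 up2 low1 low2 pot h0 in1 in2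

end Pool.Agent.Work.MP_6bf1e5_an.Parked.HelicalGalerkin
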