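import Pool.Agent.Work.MP_6bf1e5_an.Mat.Final
import Pool.Agent.Work.MP_6bf1e5_an.Mat.LocH

/-!
The three-dimensional Navier-Stokes equations for velocity components and pressure with values
in the real symmetric `n × n` matrices, the products being symmetrised. For `n = 1` these are the
usual equations. For `n ≥ 3` some Schwartz data blow up in finite time along an exact Leray
self-similar solution, although the local energy identity and the helicity cancellation hold.
-/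

open scoped ContDiff ENNReal
open Set Pool.Agent.Work.MP_6bf1e5_an.Ens Pool.Agent.Work.MP_6bf1e5_an.Mat

namespace Pool.Agent.Work.MP_6bf1e5_an.Parked.MatrixBlowup

theorem result (n : ℕ) (hn : 3 ≤ n) (ν : ℝ) (hν : 0 < ν) :
    ∃ U0 : Fin 3 → R3 → Mn n, (∀ i a b, ∃ f : SchwartzMap R3 ℝ, ∀ x, U0 i x a b = f x) ∧
      (∀ i x, (U0 i x).IsSymm) ∧ (∀ x, ∑ i, pdM i (U0 i) x = 0) ∧
      (∃ U P, MSol ν U0 (Ico 0 1) U P ∧
        (∀ t ∈ Ico (0 : ℝ) 1, menergy (fun i x => U i x t) ≤ menergy U0) ∧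
        (∀ x, ∀ t ∈ Ico (0 : ℝ) 1,
          derivWithin (fun s => (∑ i, U i x s * U i x s).trace / 2) (Ico 0 1) t
            + ∑ j, pd j
              (fun y => (U j y t * ((1 / 2 : ℝ) • ∑ i, U i y t * U i y t + P y t)).trace) x
            = ν * ∑ j, (pd j (pd j fun y => (∑ i, U i y t * U i y t).trace / 2) x
              - ∑ i, (pdM j (fun y => U i y t) x * pdM j (fun y => U i y t) x).trace) ∧
          ∑ i, (curlM (fun k y => U k y t) i x * ∑ j, (U j x t * pdM j (fun y => U i y t) x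
              + pdM j (fun y => U i y t) x * U j x t)).trace =
            ∑ i, pd i
              (fun y => (curlM (fun k z => U k z t) i y * ∑ j, U j y t * U j y t).trace) x) ∧
        ∃ W : Fin 3 → R3 → Mn n, W ≠ 0 ∧ (∃ C : ℝ, ∀ i y a b, |W i y a b| ≤ C / (1 + ‖y‖)) ∧
          (∃ Q, MSol ν W (Ico 0 1) (fun i x t => (√(1 - t))⁻¹ • W i ((√(1 - t))⁻¹ • x)) Q) ∧
          ∀ ε > 0, ∃ t0 < 1, ∀ t ∈ Ico t0 1, ∀ i y a b,
            |√(1 - t) * U i (√(1 - t) • y) t a b - W i y a b| ≤ ε) ∧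
      ¬∃ U P, MSol ν U0 (Ici 0) U P ∧
        ∃ C < (⊤ : ℝ≥0∞), ∀ t ≥ 0, menergy (fun i x => U i x t) ≤ C := by
  obtain ⟨U0, h1, h2, h3, ⟨U, P, h4, h5, h6⟩, h7⟩ := main hn hν
  exact ⟨U0, h1, h2, h3, ⟨U, P, h4, h5, fun x t ht => ⟨h4.local_energy x ht,
    helicity_cancel (V := fun k y => U k y t) (fun i a b =>
      JS.slice (F := fun y s => U i y s a b) (h4.smooth_U i a b) ht) x⟩, h6⟩, h7⟩

end Pool.Agent.Work.MP_6bf1e5_an.Parked.MatrixBlowup
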