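import Mathlib
import Pool.Agent.Work.MP_6bf1e5_an.Mixed.Defs
import Pool.Agent.Work.MP_6bf1e5_an.Mixed.Final

/-!
Unforced finite time blow-up in the scalar nearest neighbour viscous shell model, for every
energy supercritical exponent.
-/

set_option autoImplicit false

namespace Pool.Agent.Work.MP_6bf1e5_an.Parked.ScalarShellBlowup

open Set Pool.Agent.Work.MP_6bf1e5_an.Mixed

theorem result (α : ℝ) (hα : 2 < α) (s : ℝ) (hs : 0 < s) :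
    ∃ l₀ : ℝ, ∀ l ≥ l₀, ∃ ε₁ ε₂ : ℝ, 0 < ε₁ ∧ ε₁ < ε₂ ∧ ∀ ε ∈ Icc ε₁ ε₂, ∀ ν ≥ (0 : ℝ),
      ∃ M₀ : ℝ, ∀ M ≥ M₀,
        (∃ T > (0 : ℝ), ∃ X, SmoothSol ν l α ε M X (Ico 0 T) ∧
          ∀ k : ℕ, ∃ t ∈ Ico 0 T, 2 ^ k ≤ (l ^ s) ^ k * X k t) ∧
        ¬ ∃ X, SmoothSol ν l α ε M X (Ici 0) :=
  final α hα s hs

end Pool.Agent.Work.MP_6bf1e5_an.Parked.ScalarShellBlowup
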