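import Pool.Agent.Work.MP_6bf1e5_an.B.Crit2

/-!
A continuation criterion for the periodic Navier-Stokes equations (no force) that involves only
the Fourier modes of one helicity outside an at most two dimensional set of frequencies.
-/

open Pool.Agent.Work.MP_6bf1e5_an.B

namespace Pool.Agent.Work.MP_6bf1e5_an.Parked.SparseHelicity

theorem result (ν T q K : ℝ) (hν : 0 < ν) (hT : 0 < T) (hq : 1 < q)
    (u0 : R3 → R3) (u : R3 → ℝ → R3) (p : R3 → ℝ → ℝ)
    (h : IsSolutionOn (viscous ν) u0 (Set.Ico 0 T) u p)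
    (s : ℝ → ℝ) (hsign : ∀ t, s t = 1 ∨ s t = -1)
    (S : ℝ → Set Z3) (hS : ∀ t, Sparse K (S t))
    (hI : ∫⁻ t in Set.Ioo 0 T, ENNReal.ofReal
      (hs (1 / 2 + 2 / q) ((S t)ᶜ.indicator fun k => hp (s t) k (fc (fun x => u x t) k)) ^ q /
        Real.log (Real.exp 1 + hs (1 / 2) (fc fun x => u x t))) < ⊤) :
    ∃ T', T < T' ∧ ∃ (u' : R3 → ℝ → R3) (p' : R3 → ℝ → ℝ),
      IsSolutionOn (viscous ν) u0 (Set.Ico 0 T') u' p' ∧
        ∀ x, ∀ t ∈ Set.Ico 0 T, u' x t = u x t :=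
  sparse_criterion hν hT hq h hsign hS hI

end Pool.Agent.Work.MP_6bf1e5_an.Parked.SparseHelicity
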