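import Pool.Agent.Work.MP_6bf1e5_an.Ens.Final

/-!
Finite-time blow-up from Schwartz data, asymptotic to an exact Leray self-similar solution, for
an unforced system of three-dimensional Navier-Stokes equations with the true Laplacian, whose
transport terms are coupled by a constant totally symmetric tensor with a unit. The tensor is the
tensor of third moments of finitely many orthonormal random variables.
-/

open scoped ENNReal
open Set Pool.Agent.Work.MP_6bf1e5_an.Ens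

namespace Pool.Agent.Work.MP_6bf1e5_an.Parked.SystemBlowup

theorem result : ∃ c : Fin 73 → Fin 73 → Fin 73 → ℝ,
    (∀ a b d, c a b d = c b a d ∧ c a b d = c a d b) ∧
    (∀ a b, c 0 a b = if a = b then 1 else 0) ∧
    (∃ N : ℕ, 0 < N ∧ ∃ φ : Fin N → Fin 73 → ℝ, (∀ o, φ o 0 = 1) ∧
      ∀ a b d, c a b d = (∑ o, φ o a * φ o b * φ o d) / N) ∧
    ∀ ν : ℝ, 0 < ν → ∃ u0 : Fin 73 → SchwartzMap R3 R3,
      (∀ a x, ∑ i, pd i (fun y => u0 a y i) x = 0) ∧
      (∃ u p, CSol ν c (fun a => u0 a) (Ico 0 1) u p ∧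
        (∀ t ∈ Ico (0 : ℝ) 1, energy (fun a x => u a x t) ≤ energy fun a => u0 a) ∧
        ∃ W : Fin 73 → R3 → R3, W ≠ 0 ∧ (∃ C : ℝ, ∀ a y, ‖W a y‖ ≤ C / (1 + ‖y‖)) ∧
          (∃ q, CSol ν c W (Ico 0 1) (fun a x t => (√(1 - t))⁻¹ • W a ((√(1 - t))⁻¹ • x)) q) ∧
          ∀ ε > 0, ∃ t0 < 1, ∀ t ∈ Ico t0 1, ∀ a y,
            ‖√(1 - t) • u a (√(1 - t) • y) t - W a y‖ ≤ ε) ∧
      ¬∃ u p, CSol ν c (fun a => u0 a) (Ici 0) u p ∧
        ∃ C < (⊤ : ℝ≥0∞), ∀ t ≥ 0, energy (fun a x => u a x t) ≤ C :=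
  main

end Pool.Agent.Work.MP_6bf1e5_an.Parked.SystemBlowup
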